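import Pool.Agent.W26.CT.Stm

/-! CT-MINK (MP_f9ce33_an): norms of tensor products of operators. -/

set_option autoImplicit false

namespace Pool.Agent.W465.CT

lemma split {n : ℕ} {α M : Type} [Fintype α] [AddCommMonoid M] (f : (Fin (n + 1) → α) → M) :
    ∑ a, f a = ∑ a0, ∑ a' : Fin n → α, f (Fin.cons a0 a') := by
  rw [← Fintype.sum_prod_type' (fun a0 (a' : Fin n → α) => f (Fin.cons a0 a')),
    ← (Fin.consEquiv (fun _ => α)).sum_comp]
  rfl

/-- the last estimate -/
lemma two {ι : Type} [Fintype ι] (u : Bool → ι → ℝ) (_hu : ∀ b i, 0 ≤ u b i) (C : ℝ) (hC : 0 ≤ C)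
    (X : Bool → ℝ) (hX : ∀ b, 0 ≤ X b) (h : ∀ b, ∑ i, u b i ^ 2 ≤ C * X b ^ 2) :
    ∑ i, (∑ b, u b i) ^ 2 ≤ C * (∑ b, X b) ^ 2 := by
  have h1 : (∑ i, u true i * u false i) ^ 2 ≤ (C * (X true * X false)) ^ 2 := by
    have h2 := Finset.sum_mul_sq_le_sq_mul_sq Finset.univ (u true) (u false)
    have h3 : (∑ i, u true i ^ 2) * ∑ i, u false i ^ 2 ≤ (C * X true ^ 2) * (C * X false ^ 2) :=
      mul_le_mul (h true) (h false) (Finset.sum_nonneg fun i _ => sq_nonneg _)
        (mul_nonneg hC (sq_nonneg _))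
    have h4 : (C * X true ^ 2) * (C * X false ^ 2) = (C * (X true * X false)) ^ 2 := by ring
    rw [← h4]
    exact h2.trans h3
  have h5 : ∑ i, u true i * u false i ≤ C * (X true * X false) := by
    apply le_of_sq_le_sq h1
    exact mul_nonneg hC (mul_nonneg (hX _) (hX _))
  have h6 : ∑ i, (∑ b, u b i) ^ 2
      = ∑ i, u true i ^ 2 + ∑ i, u false i ^ 2 + 2 * ∑ i, u true i * u false i := by
    rw [Finset.mul_sum, ← Finset.sum_add_distrib, ← Finset.sum_add_distrib]
    apply Finset.sum_congr rfl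
    intro i _
    rw [Fintype.sum_bool]
    ring
  rw [h6, Fintype.sum_bool]
  have h7 := h true
  have h8 := h false
  nlinarith

theorem mink : Pool.Agent.W26.CT.S_MINK := by
  intro n
  induction n with
  | zero =>
    intro T c _ _ x
    simp only [Finset.univ_unique, Finset.sum_singleton, Finset.univ_eq_empty,
      Finset.prod_empty, one_mul]
    rw [← pow_mul]
  | succ n ih =>
    intro T c hc hT x
    have hC : 0 ≤ ∏ j : Fin n, c j.succ := Finset.prod_nonneg fun j _ => hc _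
    -- the intermediate vectors
    set u : Bool → (Fin n → Fin 4) → ℂ := fun b0 a' =>
      ∑ b' : Fin n → Bool, (∏ j, T j.succ (a' j) (b' j)) * x (Fin.cons b0 b') with hu
    have hu4 : ∀ b0, ∑ a' : Fin n → Fin 4, (‖u b0 a'‖ ^ 2) ^ 2 ≤
        (∏ j : Fin n, c j.succ) * (∑ b' : Fin n → Bool, ‖x (Fin.cons b0 b')‖ ^ 2) ^ 2 := by
      intro b0
      have h1 := ih (fun j => T j.succ) (fun j => c j.succ) (fun j => hc _) (fun j => hT _)
        (fun b' => x (Fin.cons b0 b'))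
      simp_rw [← pow_mul]
      exact h1
    have hin : ∀ (a0 : Fin 4) (a' : Fin n → Fin 4),
        ∑ b : Fin (n + 1) → Bool, (∏ j, T j ((Fin.cons a0 a' : Fin (n + 1) → Fin 4) j) (b j)) * x b
          = ∑ b0, T 0 a0 b0 * u b0 a' := by
      intro a0 a'
      rw [split]
      apply Finset.sum_congr rfl
      intro b0 _
      rw [hu, Finset.mul_sum]
      apply Finset.sum_congr rfl
      intro b' _
      rw [Fin.prod_univ_succ]
      simp only [Fin.cons_zero, Fin.cons_succ]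
      ring
    rw [split]
    simp_rw [hin]
    rw [Finset.sum_comm]
    have h2 : ∀ a' : Fin n → Fin 4, ∑ a0, ‖∑ b0, T 0 a0 b0 * u b0 a'‖ ^ 4
        ≤ c 0 * (∑ b0, ‖u b0 a'‖ ^ 2) ^ 2 := fun a' => hT 0 (fun b0 => u b0 a')
    refine (Finset.sum_le_sum fun a' _ => h2 a').trans ?_
    rw [← Finset.mul_sum, Fin.prod_univ_succ, mul_assoc]
    apply mul_le_mul_of_nonneg_left _ (hc 0)
    rw [split (fun b => ‖x b‖ ^ 2)]
    exact two (fun b0 a' => ‖u b0 a'‖ ^ 2) (fun b0 a' => sq_nonneg _) _ hC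
      (fun b0 => ∑ b' : Fin n → Bool, ‖x (Fin.cons b0 b')‖ ^ 2)
      (fun b0 => Finset.sum_nonneg fun b' _ => sq_nonneg _) hu4

end Pool.Agent.W465.CT
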